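import Pool.Agent.Helper75.FS.St

/-!
# Project FS (MP_e73f90_co), module F3: the cluster points
-/

set_option autoImplicit false

namespace Pool.Agent.Helper47.FS

open Filter Topology Pool.Agent.Helper75.FS

theorem clu (f : ℕ → ℝ) (x : ℝ) :
    MapClusterPt x atTop f ↔ ∀ ε : ℝ, 0 < ε → ∀ N : ℕ, ∃ n : ℕ, N ≤ n ∧ |f n - x| < ε := by
  rw [mapClusterPt_iff_frequently]
  constructor
  · intro h ε hε N
    have h1 := h (Metric.ball x ε) (Metric.ball_mem_nhds x hε)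
    rw [Filter.frequently_atTop] at h1
    obtain ⟨n, hn, h2⟩ := h1 N
    exact ⟨n, hn, by rwa [Metric.mem_ball, Real.dist_eq] at h2⟩
  · intro h s hs
    obtain ⟨ε, hε, hb⟩ := Metric.mem_nhds_iff.1 hs
    rw [Filter.frequently_atTop]
    intro N
    obtain ⟨n, hn, h2⟩ := h ε hε N
    exact ⟨n, hn, hb (by rwa [Metric.mem_ball, Real.dist_eq])⟩

theorem succ_pow (r : ℕ) (δ : ℝ) (hδ : 0 < δ) : ∃ N : ℕ, ∀ n : ℕ, N ≤ n →
    ((n : ℝ) + 1) ^ r ≤ (1 + δ) * (n : ℝ) ^ r := by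
  have h1 : Tendsto (fun n : ℕ => (1 + 1 / (n : ℝ)) ^ r) atTop (𝓝 ((1 + 0) ^ r)) :=
    (tendsto_const_nhds.add tendsto_one_div_atTop_nhds_zero_nat).pow r
  rw [add_zero, one_pow] at h1
  have h2 : ∀ᶠ n : ℕ in atTop, (1 + 1 / (n : ℝ)) ^ r < 1 + δ :=
    h1.eventually_lt_const (by linarith)
  obtain ⟨N, hN⟩ := (h2.and (eventually_ge_atTop 1)).exists_forall_of_atTop
  refine ⟨N, fun n hn => ?_⟩
  obtain ⟨h3, h4⟩ := hN n hn
  have h5 : (0 : ℝ) < n := by exact_mod_cast h4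
  have h6 : ((n : ℝ) + 1) = (1 + 1 / (n : ℝ)) * n := by
    field_simp
  rw [h6, mul_pow]
  exact mul_le_mul_of_nonneg_right h3.le (pow_nonneg h5.le r)

/-- the least density increases slowly -/
theorem slow (hA3 : StA3) (hA5 : StA5) (hA7 : StA7) (hB1 : StB1) (hB4 : StB4) (r : ℕ) (hr : 1 ≤ r) (ε : ℝ)
    (hε : 0 < ε) : ∃ N : ℕ, ∀ n : ℕ, N ≤ n → mm (n + 1) r ≤ mm n r + ε := by
  set M : ℝ := 2 * (2 * (r : ℝ)) ^ r + 1 with hM
  have hM1 : 1 ≤ M := by
    have : (0 : ℝ) ≤ (2 * (r : ℝ)) ^ r := by positivity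
    linarith
  set δ : ℝ := min (1 / 4) (ε / (8 * M)) with hδ
  have hδ0 : 0 < δ := lt_min (by norm_num) (by positivity)
  have hδ1 : δ ≤ 1 / 4 := min_le_left _ _
  have hδ2 : 8 * δ * M ≤ ε := by
    have h1 : δ ≤ ε / (8 * M) := min_le_right _ _
    have h2 : (0 : ℝ) < 8 * M := by linarith
    rw [le_div_iff₀ h2] at h1
    linarith
  obtain ⟨N1, hN1⟩ := hA7 r δ hδ0
  obtain ⟨N2, hN2⟩ := succ_pow r δ hδ0
  obtain ⟨N3, hN3⟩ := hB4 r hr 1 one_pos
  refine ⟨max N1 (max N2 N3), fun n hn => ?_⟩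
  have hn1 : N1 ≤ n := (le_max_left _ _).trans hn
  have hn2 : N2 ≤ n := (le_max_left _ _).trans ((le_max_right _ _).trans hn)
  have hn3 : N3 ≤ n := (le_max_right _ _).trans ((le_max_right _ _).trans hn)
  obtain ⟨c, hc, _, hmm⟩ := hA5.2.1 n r
  have h1 : mm (n + 1) r ≤ (ball (n + 1) r : ℝ) / 2 ^ c :=
    hA5.1 (n + 1) r c (hA3 n (n + 1) r c (Nat.le_succ n) hc)
  have h2 := (hN1 n hn1).1
  have h3 := (hN1 (n + 1) (hn1.trans (Nat.le_succ n))).2
  have h4 := hN2 n hn2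
  have hM2 : mm n r ≤ M := by
    obtain ⟨ρ, _, _, h5⟩ := hN3 n hn3
    have h6 := ((hB1 r hr).1 (ρ + 1)).2
    linarith
  have hfac : (0 : ℝ) < r.factorial := by exact_mod_cast r.factorial_pos
  -- the balls
  set q : ℝ := (n : ℝ) ^ r / r.factorial with hq
  have hq0 : 0 ≤ q := by positivity
  have h5 : (ball (n + 1) r : ℝ) ≤ (1 + δ) * ((1 + δ) * q) := by
    refine h3.trans ?_
    refine mul_le_mul_of_nonneg_left ?_ (by linarith)
    rw [hq, ← mul_div_assoc]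
    refine div_le_div_of_nonneg_right ?_ hfac.le
    push_cast
    exact h4
  have h6 : (1 + δ) * ((1 + δ) * q) ≤ (1 + 8 * δ) * ((1 - δ) * q) := by
    have h7 : (1 + δ) * (1 + δ) ≤ (1 + 8 * δ) * (1 - δ) := by nlinarith
    calc (1 + δ) * ((1 + δ) * q) = ((1 + δ) * (1 + δ)) * q := by ring
      _ ≤ ((1 + 8 * δ) * (1 - δ)) * q := mul_le_mul_of_nonneg_right h7 hq0
      _ = _ := by ring
  have h7 : (1 + 8 * δ) * ((1 - δ) * q) ≤ (1 + 8 * δ) * (ball n r : ℝ) :=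
    mul_le_mul_of_nonneg_left h2 (by linarith)
  have h8 : (ball (n + 1) r : ℝ) ≤ (1 + 8 * δ) * (ball n r : ℝ) := h5.trans (h6.trans h7)
  have h9 : (ball (n + 1) r : ℝ) / 2 ^ c ≤ (1 + 8 * δ) * mm n r := by
    rw [hmm, ← mul_div_assoc]
    exact div_le_div_of_nonneg_right h8 (by positivity)
  have h10 : 8 * δ * mm n r ≤ 8 * δ * M := mul_le_mul_of_nonneg_left hM2 (by linarith)
  linarith

theorem hF3 (hA3 : StA3) (hA5 : StA5) (hA7 : StA7) (hB1 : StB1) (hB4 : StB4) (_hB5 : StB5) (hB6 : StB6) :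
    StF3 := by
  intro r hr
  ext x
  rw [Set.mem_setOf_eq, clu]
  constructor
  · intro h
    have hcl : IsClosed (⋃ ρ : Fin r, Set.Icc (LL r ρ) (2 * LL r ((ρ : ℕ) + 1))) :=
      isClosed_iUnion_of_finite fun ρ => isClosed_Icc
    rw [← hcl.closure_eq, Metric.mem_closure_iff]
    intro ε hε
    obtain ⟨N, hN⟩ := hB4 r hr (ε / 2) (by linarith)
    obtain ⟨n, hn, h1⟩ := h (ε / 2) (by linarith) N
    obtain ⟨ρ, hρ, h2, h3⟩ := hN n hn
    have h4 := (hB6 r hr ρ).2.2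
    refine ⟨max (LL r ρ) (min (mm n r) (2 * LL r (ρ + 1))), ?_, ?_⟩
    · rw [Set.mem_iUnion]
      exact ⟨⟨ρ, hρ⟩, le_max_left _ _, max_le h4 (min_le_right _ _)⟩
    · rw [Real.dist_eq]
      rw [abs_lt] at h1 ⊢
      rcases le_total (mm n r) (2 * LL r (ρ + 1)) with h5 | h5
      · rw [min_eq_left h5]
        rcases le_total (LL r ρ) (mm n r) with h6 | h6
        · rw [max_eq_right h6]
          constructor <;> linarith
        · rw [max_eq_left h6]
          constructor <;> linarith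
      · rw [min_eq_right h5, max_eq_right h4]
        constructor <;> linarith
  · intro hx ε hε N
    rw [Set.mem_iUnion] at hx
    obtain ⟨ρ, hx1, hx2⟩ := hx
    obtain ⟨N1, hN1⟩ := slow hA3 hA5 hA7 hB1 hB4 r hr (ε / 2) (by linarith)
    obtain ⟨n, hn, h1⟩ := (hB6 r hr ρ).1 (ε / 2) (by linarith) (max N N1)
    have hnN : N ≤ n := (le_max_left _ _).trans hn
    have hnN1 : N1 ≤ n := (le_max_right _ _).trans hn
    obtain ⟨n', hn', h2⟩ := (hB6 r hr ρ).2.1 (ε / 2) (by linarith) n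
    by_cases h3 : x - ε / 2 ≤ mm n r
    · refine ⟨n, hnN, ?_⟩
      rw [abs_lt]
      constructor <;> linarith
    · push Not at h3
      classical
      have hex : ∃ m, n ≤ m ∧ x - ε / 2 ≤ mm m r := ⟨n', hn', by linarith⟩
      obtain ⟨h4, h5⟩ := Nat.find_spec hex
      set m := Nat.find hex with hm
      have h6 : n ≠ m := by
        intro h
        rw [← h] at h5
        linarith
      obtain ⟨k, hk⟩ : ∃ k, m = k + 1 := Nat.exists_eq_succ_of_ne_zero (by omega)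
      have h7 : ¬ (n ≤ k ∧ x - ε / 2 ≤ mm k r) := Nat.find_min hex (by omega)
      have h8 : mm k r < x - ε / 2 := by
        by_contra h
        push Not at h
        exact h7 ⟨by omega, h⟩
      have h9 := hN1 k (by omega)
      rw [← hk] at h9
      refine ⟨m, by omega, ?_⟩
      rw [abs_lt]
      constructor <;> linarith

end Pool.Agent.Helper47.FS
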